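import Pool.Agent.Helper90.Free.Lur
import Pool.Agent.Helper90.Free.Loc

/-!
# MP_c2fecd_an, Q1 (and the broader question): the Lipschitz-free space over `ℓ_∞`, and over any
pointed metric space whatsoever, admits an equivalent LUR norm.
-/

set_option autoImplicit false
set_option linter.unusedVariables false

namespace Pool.Agent.Results.MP_c2fecd_an.LurNorm

open Set Filter Topology
open scoped NNReal ENNReal

section Free

variable (M : Type*) [MetricSpace M] [Zero M]

/-- The vector space of real Lipschitz functions on `M` vanishing at the base point `0`. -/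
def lipSub : Submodule ℝ (M → ℝ) where
  carrier := {f | f 0 = 0 ∧ ∃ K : ℝ≥0, LipschitzWith K f}
  zero_mem' := ⟨rfl, 0, LipschitzWith.const 0⟩
  add_mem' := by
    rintro f g ⟨hf, K, hK⟩ ⟨hg, L, hL⟩
    exact ⟨by simp [hf, hg], K + L, hK.add hL⟩
  smul_mem' := by
    rintro c f ⟨hf, K, hK⟩
    exact ⟨by simp [hf], ‖c‖₊ * K, (lipschitzWith_smul c).comp hK⟩

/-- `Lip₀(M)`. -/
def Lip0 : Type _ := ↥(lipSub M)

instance : AddCommGroup (Lip0 M) := inferInstanceAs (AddCommGroup ↥(lipSub M))
instance : Module ℝ (Lip0 M) := inferInstanceAs (Module ℝ ↥(lipSub M))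

variable {M}

/-- The function underlying an element of `Lip₀(M)`. -/
def Lip0.fn (f : Lip0 M) : M → ℝ := (show ↥(lipSub M) from f).1

theorem Lip0.ext {f g : Lip0 M} (h : ∀ x, f.fn x = g.fn x) : f = g :=
  Subtype.ext (funext h)

@[simp] theorem Lip0.fn_zero_pt (f : Lip0 M) : f.fn 0 = 0 := (show ↥(lipSub M) from f).2.1
@[simp] theorem Lip0.fn_add (f g : Lip0 M) (x : M) : (f + g).fn x = f.fn x + g.fn x := rfl
@[simp] theorem Lip0.fn_smul (c : ℝ) (f : Lip0 M) (x : M) : (c • f).fn x = c * f.fn x := rfl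
@[simp] theorem Lip0.fn_zero (x : M) : (0 : Lip0 M).fn x = 0 := rfl

/-- The best Lipschitz constant `sup |f x - f y| / d(x, y)` (the terms with `x = y` are `0`). -/
noncomputable instance : Norm (Lip0 M) where
  norm f := ⨆ p : M × M, |f.fn p.1 - f.fn p.2| / dist p.1 p.2

theorem Lip0.norm_def (f : Lip0 M) : ‖f‖ = ⨆ p : M × M, |f.fn p.1 - f.fn p.2| / dist p.1 p.2 := rfl

theorem Lip0.bddAbove (f : Lip0 M) :
    BddAbove (range fun p : M × M => |f.fn p.1 - f.fn p.2| / dist p.1 p.2) := by
  obtain ⟨-, K, hK⟩ := (show ↥(lipSub M) from f).2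
  refine ⟨K, ?_⟩
  rintro _ ⟨p, rfl⟩
  apply div_le_of_le_mul₀ dist_nonneg K.coe_nonneg
  have := hK.dist_le_mul p.1 p.2
  rwa [Real.dist_eq] at this

theorem Lip0.le_norm_mul (f : Lip0 M) (x y : M) : |f.fn x - f.fn y| ≤ ‖f‖ * dist x y := by
  by_cases h : x = y
  · subst h
    simp
  · have h1 : |f.fn x - f.fn y| / dist x y ≤ ‖f‖ := le_ciSup f.bddAbove (x, y)
    rwa [div_le_iff₀ (dist_pos.2 h)] at h1

theorem Lip0.norm_le (f : Lip0 M) {C : ℝ} (hC : 0 ≤ C)
    (h : ∀ x y, |f.fn x - f.fn y| ≤ C * dist x y) : ‖f‖ ≤ C := by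
  have : Nonempty (M × M) := ⟨(0, 0)⟩
  apply ciSup_le
  intro p
  exact div_le_of_le_mul₀ dist_nonneg hC (h p.1 p.2)

theorem Lip0.norm_nonneg' (f : Lip0 M) : 0 ≤ ‖f‖ := by
  have h1 : |f.fn (0 : M) - f.fn 0| / dist (0 : M) 0 ≤ ‖f‖ := le_ciSup f.bddAbove (0, 0)
  have h2 : |f.fn (0 : M) - f.fn 0| / dist (0 : M) 0 = 0 := by simp
  rw [h2] at h1
  exact h1

theorem Lip0.core : NormedSpace.Core ℝ (Lip0 M) where
  norm_nonneg := Lip0.norm_nonneg'
  norm_smul c f := by
    apply le_antisymm
    · apply Lip0.norm_le _ (mul_nonneg (norm_nonneg _) f.norm_nonneg')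
      intro x y
      rw [Lip0.fn_smul, Lip0.fn_smul, ← mul_sub, abs_mul, mul_assoc]
      exact mul_le_mul_of_nonneg_left (f.le_norm_mul x y) (abs_nonneg _)
    · by_cases hc : c = 0
      · subst hc
        simp [Lip0.norm_nonneg']
      · have hc' : 0 < ‖c‖ := norm_pos_iff.2 hc
        rw [← le_div_iff₀' hc']
        apply Lip0.norm_le _ (div_nonneg (Lip0.norm_nonneg' _) hc'.le)
        intro x y
        have h := (c • f).le_norm_mul x y
        rw [Lip0.fn_smul, Lip0.fn_smul, ← mul_sub, abs_mul] at h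
        rw [div_mul_eq_mul_div, le_div_iff₀' hc']
        exact h
  norm_triangle f g := by
    apply Lip0.norm_le _ (add_nonneg f.norm_nonneg' g.norm_nonneg')
    intro x y
    rw [Lip0.fn_add, Lip0.fn_add, add_mul]
    have h1 := f.le_norm_mul x y
    have h2 := g.le_norm_mul x y
    have h3 : f.fn x + g.fn x - (f.fn y + g.fn y) = (f.fn x - f.fn y) + (g.fn x - g.fn y) := by ring
    rw [h3]
    exact (abs_add_le _ _).trans (add_le_add h1 h2)
  norm_eq_zero_iff f := by
    constructor
    · intro h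
      apply Lip0.ext
      intro x
      have := f.le_norm_mul x 0
      rw [h, zero_mul, Lip0.fn_zero_pt, sub_zero] at this
      exact abs_eq_zero.1 (le_antisymm this (abs_nonneg _))
    · rintro rfl
      apply le_antisymm _ (Lip0.norm_nonneg' _)
      apply Lip0.norm_le _ le_rfl
      intro x y
      simp

noncomputable instance : NormedAddCommGroup (Lip0 M) := NormedAddCommGroup.ofCore Lip0.core
noncomputable instance : NormedSpace ℝ (Lip0 M) := NormedSpace.ofCore Lip0.core

variable (M) in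
/-- The Banach space dual `Lip₀(M)*` with the dual norm. -/
abbrev DualLip : Type _ := StrongDual ℝ (Lip0 M)

/-- Evaluation `δ(x) ∈ Lip₀(M)*`. -/
noncomputable def delta (x : M) : DualLip M :=
  LinearMap.mkContinuous
    { toFun := fun f => f.fn x
      map_add' := fun _ _ => rfl
      map_smul' := fun _ _ => rfl } (dist x 0) (by
      intro f
      have := f.le_norm_mul x 0
      rw [Lip0.fn_zero_pt, sub_zero] at this
      rw [mul_comm]
      exact this)

/-- the value of a functional -/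
noncomputable def DualLip.app (μ : DualLip M) (f : Lip0 M) : ℝ :=
  (show StrongDual ℝ (Lip0 M) from μ) f

theorem delta_app (x : M) (f : Lip0 M) : (delta x).app f = f.fn x := rfl
theorem DualLip.app_add (μ ν : DualLip M) (f : Lip0 M) : (μ + ν).app f = μ.app f + ν.app f := rfl
theorem DualLip.app_sub (μ ν : DualLip M) (f : Lip0 M) : (μ - ν).app f = μ.app f - ν.app f := rfl
theorem DualLip.app_smul (c : ℝ) (μ : DualLip M) (f : Lip0 M) :
    (c • μ).app f = c * μ.app f := rfl
theorem DualLip.app_neg (μ : DualLip M) (f : Lip0 M) : μ.app (-f) = -μ.app f :=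
  map_neg (show StrongDual ℝ (Lip0 M) from μ) f

theorem DualLip.abs_app_le (μ : DualLip M) (f : Lip0 M) : |μ.app f| ≤ ‖μ‖ * ‖f‖ :=
  (show StrongDual ℝ (Lip0 M) from μ).le_opNorm f

/-- evaluation at `f` as a linear map -/
noncomputable def DualLip.ev (f : Lip0 M) : DualLip M →ₗ[ℝ] ℝ where
  toFun μ := μ.app f
  map_add' _ _ := rfl
  map_smul' _ _ := rfl

theorem DualLip.ev_apply (f : Lip0 M) (μ : DualLip M) : DualLip.ev f μ = μ.app f := rfl

variable (M)

/-- The Lipschitz-free space `F(M)`: the norm-closed linear span of `δ(M)` in `Lip₀(M)*`. -/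
noncomputable def LipFree : Submodule ℝ (DualLip M) :=
  (Submodule.span ℝ (range (delta : M → DualLip M))).topologicalClosure

/-- The Lipschitz-free space `F(M)` as a Banach space. -/
abbrev FreeSpace : Type _ := ↥(LipFree M)

end Free

/-- `E` admits an LUR norm equivalent to the given one: a norm `N` with `a ‖x‖ ≤ N x ≤ b ‖x‖`,
`a, b > 0`, such that `N x = N (u n) = 1` and `N (u n + x) → 2` imply `N (u n - x) → 0`. -/
def AdmitsLURNorm (E : Type*) [NormedAddCommGroup E] [NormedSpace ℝ E] : Prop :=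
  ∃ N : Seminorm ℝ E, (∃ a b : ℝ, 0 < a ∧ 0 < b ∧ ∀ x, a * ‖x‖ ≤ N x ∧ N x ≤ b * ‖x‖) ∧
    ∀ (x : E) (u : ℕ → E), N x = 1 → (∀ n, N (u n) = 1) →
      Tendsto (fun n => N (u n + x)) atTop (𝓝 2) →
      Tendsto (fun n => N (u n - x)) atTop (𝓝 0)

/-- The Lipschitz-free space over `M` admits an equivalent LUR norm. -/
def FreeSpaceAdmitsLURNorm (M : Type*) [MetricSpace M] [Zero M] : Prop :=
  AdmitsLURNorm (FreeSpace M)

/-- `ℓ_∞` -/
abbrev linf := lp (fun _ : ℕ => ℝ) ⊤


section Inst

variable {M : Type*} [MetricSpace M] [Zero M]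

/-- `δ` as a map into the free space -/
noncomputable def deltaF (x : M) : FreeSpace M :=
  ⟨delta x, Submodule.le_topologicalClosure _ (Submodule.subset_span ⟨x, rfl⟩)⟩

theorem norm_delta_sub_le (x y : M) : ‖(delta x - delta y : DualLip M)‖ ≤ dist x y := by
  apply ContinuousLinearMap.opNorm_le_bound _ dist_nonneg
  intro f
  have h1 := f.le_norm_mul x y
  have h2 : (delta x - delta y : DualLip M) f = f.fn x - f.fn y := rfl
  rw [h2, Real.norm_eq_abs, mul_comm]
  exact h1

theorem exists_mem_span {y : DualLip M} (hy : y ∈ Submodule.span ℝ (range (delta : M → DualLip M))) :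
    ∃ y' ∈ Submodule.span ℝ (range (deltaF : M → FreeSpace M)), (y' : DualLip M) = y := by
  induction hy using Submodule.span_induction with
  | mem x hx =>
    obtain ⟨m, rfl⟩ := hx
    exact ⟨deltaF m, Submodule.subset_span ⟨m, rfl⟩, rfl⟩
  | zero => exact ⟨0, Submodule.zero_mem _, rfl⟩
  | add x y _ _ hx hy =>
    obtain ⟨x', hx1, hx2⟩ := hx
    obtain ⟨y', hy1, hy2⟩ := hy
    exact ⟨x' + y', Submodule.add_mem _ hx1 hy1, by rw [Submodule.coe_add, hx2, hy2]⟩
  | smul a x _ hx =>
    obtain ⟨x', hx1, hx2⟩ := hx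
    exact ⟨a • x', Submodule.smul_mem _ a hx1, by rw [Submodule.coe_smul, hx2]⟩

/-- evaluation at `f`, as a continuous functional on the free space -/
noncomputable def evF (f : Lip0 M) : FreeSpace M →L[ℝ] ℝ :=
  LinearMap.mkContinuous
    { toFun := fun μ : FreeSpace M => (μ : DualLip M).app f
      map_add' := fun _ _ => rfl
      map_smul' := fun _ _ => rfl } ‖f‖ (by
      intro μ
      rw [mul_comm]
      exact (μ : DualLip M).abs_app_le f)

theorem isFree : Pool.Agent.Helper90.Free.IsFree (deltaF : M → FreeSpace M) where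
  zero := by
    apply Subtype.ext
    apply ContinuousLinearMap.ext
    intro f
    exact f.fn_zero_pt
  lip x y := norm_delta_sub_le x y
  ext f K hK f0 hf := by
    have hf' : ∀ x y, |f x - f y| ≤ K * dist x y := by
      intro x y
      rw [abs_le]
      have h1 := hf x y
      have h2 := hf y x
      rw [dist_comm] at h2
      constructor <;> linarith
    let F : Lip0 M := ⟨f, f0, ⟨K, hK⟩, LipschitzWith.of_dist_le_mul fun x y => by
      rw [Real.dist_eq]; exact hf' x y⟩
    refine ⟨evF F, fun x => rfl, ?_⟩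
    refine (LinearMap.mkContinuous_norm_le _ (norm_nonneg F) _).trans ?_
    exact F.norm_le hK hf'
  dense e ε hε := by
    have he : (e : DualLip M) ∈ closure (Submodule.span ℝ (range (delta : M → DualLip M)) : Set _) :=
      e.2
    obtain ⟨y, hy, hey⟩ := Metric.mem_closure_iff.1 he ε hε
    obtain ⟨y', hy', rfl⟩ := exists_mem_span hy
    refine ⟨y', hy', ?_⟩
    rw [dist_eq_norm] at hey
    exact hey.le

theorem admitsLURNorm_freeSpace (M : Type*) [MetricSpace M] [Zero M] :
    AdmitsLURNorm (FreeSpace M) := by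
  classical
  have hδ := isFree (M := M)
  have hn : ∀ n : ℕ, (0 : ℝ) ≤ ((n : ℝ) + 1)⁻¹ := fun n => by positivity
  obtain ⟨N, ⟨a, b, ha, hb, hab⟩, hN⟩ := Pool.Agent.Helper90.Free.lur_of_local
    (fun S : Finset M => Pool.Agent.Helper90.Free.VS deltaF S) (fun S => inferInstance)
    (fun n S => Pool.Agent.Helper90.Free.phi hδ (hn n) S) 2
    (fun n S x => Pool.Agent.Helper90.Free.phi_le hδ (hn n) S x)
    (fun x ε hε => by
      obtain ⟨n, _, η, hη, h⟩ := Pool.Agent.Helper90.Free.localization hδ x hε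
      exact ⟨n, η, hη, h⟩)
  refine ⟨N, ⟨a, b, ha, hb, hab⟩, fun x u hx hu hxu => ?_⟩
  have h1 := hN x u hx hu hxu
  have h2 : Tendsto (fun n => b * ‖u n - x‖) atTop (𝓝 0) := by
    have := h1.const_mul b
    rwa [mul_zero] at this
  exact squeeze_zero (fun n => apply_nonneg N _) (fun n => (hab _).2) h2

end Inst

universe w

/-- `F(ℓ_∞)` admits an equivalent LUR norm (Q1); more generally so does `F(M)` for every pointed
metric space `M` (in particular for every Banach space `M`). -/
theorem result : FreeSpaceAdmitsLURNorm linf ∧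
    ∀ (M : Type w) [MetricSpace M] [Zero M], FreeSpaceAdmitsLURNorm M :=
  ⟨admitsLURNorm_freeSpace linf, fun M _ _ => admitsLURNorm_freeSpace M⟩

end Pool.Agent.Results.MP_c2fecd_an.LurNorm
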