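import Mathlib

/-!
# MP_c2fecd_an, Q2: the Lipschitz-free space over `ℓ_∞` admits an equivalent strictly convex norm.
-/

namespace Pool.Agent.Results.MP_c2fecd_an.StrictlyConvex

open Set Filter Topology
open scoped NNReal ENNReal

section Free

variable (M : Type*) [MetricSpace M] [Zero M]

/-- The vector space of real Lipschitz functions on `M` vanishing at the base point `0`. -/
def lipSub : Submodule ℝ (M → ℝ) where
  carrier := {f | f 0 = 0 ∧ ∃ K : ℝ≥0, LipschitzWith K f}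
  zero_mem' := ⟨rfl, 0, LipschitzWith.const 0⟩
  add_mem' := by
    rintro f g ⟨hf, K, hK⟩ ⟨hg, L, hL⟩
    exact ⟨by simp [hf, hg], K + L, hK.add hL⟩
  smul_mem' := by
    rintro c f ⟨hf, K, hK⟩
    exact ⟨by simp [hf], ‖c‖₊ * K, (lipschitzWith_smul c).comp hK⟩

/-- `Lip₀(M)`. -/
def Lip0 : Type _ := ↥(lipSub M)

instance : AddCommGroup (Lip0 M) := inferInstanceAs (AddCommGroup ↥(lipSub M))
instance : Module ℝ (Lip0 M) := inferInstanceAs (Module ℝ ↥(lipSub M))

variable {M}

/-- The function underlying an element of `Lip₀(M)`. -/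
def Lip0.fn (f : Lip0 M) : M → ℝ := (show ↥(lipSub M) from f).1

theorem Lip0.ext {f g : Lip0 M} (h : ∀ x, f.fn x = g.fn x) : f = g :=
  Subtype.ext (funext h)

@[simp] theorem Lip0.fn_zero_pt (f : Lip0 M) : f.fn 0 = 0 := (show ↥(lipSub M) from f).2.1
@[simp] theorem Lip0.fn_add (f g : Lip0 M) (x : M) : (f + g).fn x = f.fn x + g.fn x := rfl
@[simp] theorem Lip0.fn_smul (c : ℝ) (f : Lip0 M) (x : M) : (c • f).fn x = c * f.fn x := rfl
@[simp] theorem Lip0.fn_zero (x : M) : (0 : Lip0 M).fn x = 0 := rfl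

/-- The best Lipschitz constant `sup |f x - f y| / d(x, y)` (the terms with `x = y` are `0`). -/
noncomputable instance : Norm (Lip0 M) where
  norm f := ⨆ p : M × M, |f.fn p.1 - f.fn p.2| / dist p.1 p.2

theorem Lip0.norm_def (f : Lip0 M) : ‖f‖ = ⨆ p : M × M, |f.fn p.1 - f.fn p.2| / dist p.1 p.2 := rfl

theorem Lip0.bddAbove (f : Lip0 M) :
    BddAbove (range fun p : M × M => |f.fn p.1 - f.fn p.2| / dist p.1 p.2) := by
  obtain ⟨-, K, hK⟩ := (show ↥(lipSub M) from f).2
  refine ⟨K, ?_⟩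
  rintro _ ⟨p, rfl⟩
  apply div_le_of_le_mul₀ dist_nonneg K.coe_nonneg
  have := hK.dist_le_mul p.1 p.2
  rwa [Real.dist_eq] at this

theorem Lip0.le_norm_mul (f : Lip0 M) (x y : M) : |f.fn x - f.fn y| ≤ ‖f‖ * dist x y := by
  by_cases h : x = y
  · subst h
    simp
  · have h1 : |f.fn x - f.fn y| / dist x y ≤ ‖f‖ := le_ciSup f.bddAbove (x, y)
    rwa [div_le_iff₀ (dist_pos.2 h)] at h1

theorem Lip0.norm_le (f : Lip0 M) {C : ℝ} (hC : 0 ≤ C)
    (h : ∀ x y, |f.fn x - f.fn y| ≤ C * dist x y) : ‖f‖ ≤ C := by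
  have : Nonempty (M × M) := ⟨(0, 0)⟩
  apply ciSup_le
  intro p
  exact div_le_of_le_mul₀ dist_nonneg hC (h p.1 p.2)

theorem Lip0.norm_nonneg' (f : Lip0 M) : 0 ≤ ‖f‖ := by
  have h1 : |f.fn (0 : M) - f.fn 0| / dist (0 : M) 0 ≤ ‖f‖ := le_ciSup f.bddAbove (0, 0)
  have h2 : |f.fn (0 : M) - f.fn 0| / dist (0 : M) 0 = 0 := by simp
  rw [h2] at h1
  exact h1

theorem Lip0.core : NormedSpace.Core ℝ (Lip0 M) where
  norm_nonneg := Lip0.norm_nonneg'
  norm_smul c f := by
    apply le_antisymm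
    · apply Lip0.norm_le _ (mul_nonneg (norm_nonneg _) f.norm_nonneg')
      intro x y
      rw [Lip0.fn_smul, Lip0.fn_smul, ← mul_sub, abs_mul, mul_assoc]
      exact mul_le_mul_of_nonneg_left (f.le_norm_mul x y) (abs_nonneg _)
    · by_cases hc : c = 0
      · subst hc
        simp [Lip0.norm_nonneg']
      · have hc' : 0 < ‖c‖ := norm_pos_iff.2 hc
        rw [← le_div_iff₀' hc']
        apply Lip0.norm_le _ (div_nonneg (Lip0.norm_nonneg' _) hc'.le)
        intro x y
        have h := (c • f).le_norm_mul x y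
        rw [Lip0.fn_smul, Lip0.fn_smul, ← mul_sub, abs_mul] at h
        rw [div_mul_eq_mul_div, le_div_iff₀' hc']
        exact h
  norm_triangle f g := by
    apply Lip0.norm_le _ (add_nonneg f.norm_nonneg' g.norm_nonneg')
    intro x y
    rw [Lip0.fn_add, Lip0.fn_add, add_mul]
    have h1 := f.le_norm_mul x y
    have h2 := g.le_norm_mul x y
    have h3 : f.fn x + g.fn x - (f.fn y + g.fn y) = (f.fn x - f.fn y) + (g.fn x - g.fn y) := by ring
    rw [h3]
    exact (abs_add_le _ _).trans (add_le_add h1 h2)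
  norm_eq_zero_iff f := by
    constructor
    · intro h
      apply Lip0.ext
      intro x
      have := f.le_norm_mul x 0
      rw [h, zero_mul, Lip0.fn_zero_pt, sub_zero] at this
      exact abs_eq_zero.1 (le_antisymm this (abs_nonneg _))
    · rintro rfl
      apply le_antisymm _ (Lip0.norm_nonneg' _)
      apply Lip0.norm_le _ le_rfl
      intro x y
      simp

noncomputable instance : NormedAddCommGroup (Lip0 M) := NormedAddCommGroup.ofCore Lip0.core
noncomputable instance : NormedSpace ℝ (Lip0 M) := NormedSpace.ofCore Lip0.core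

variable (M) in
/-- The Banach space dual `Lip₀(M)*` with the dual norm. -/
abbrev DualLip : Type _ := StrongDual ℝ (Lip0 M)

/-- Evaluation `δ(x) ∈ Lip₀(M)*`. -/
noncomputable def delta (x : M) : DualLip M :=
  LinearMap.mkContinuous
    { toFun := fun f => f.fn x
      map_add' := fun _ _ => rfl
      map_smul' := fun _ _ => rfl } (dist x 0) (by
      intro f
      have := f.le_norm_mul x 0
      rw [Lip0.fn_zero_pt, sub_zero] at this
      rw [mul_comm]
      exact this)

/-- the value of a functional -/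
noncomputable def DualLip.app (μ : DualLip M) (f : Lip0 M) : ℝ :=
  (show StrongDual ℝ (Lip0 M) from μ) f

theorem delta_app (x : M) (f : Lip0 M) : (delta x).app f = f.fn x := rfl
theorem DualLip.app_add (μ ν : DualLip M) (f : Lip0 M) : (μ + ν).app f = μ.app f + ν.app f := rfl
theorem DualLip.app_sub (μ ν : DualLip M) (f : Lip0 M) : (μ - ν).app f = μ.app f - ν.app f := rfl
theorem DualLip.app_smul (c : ℝ) (μ : DualLip M) (f : Lip0 M) :
    (c • μ).app f = c * μ.app f := rfl
theorem DualLip.app_neg (μ : DualLip M) (f : Lip0 M) : μ.app (-f) = -μ.app f :=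
  map_neg (show StrongDual ℝ (Lip0 M) from μ) f

theorem DualLip.abs_app_le (μ : DualLip M) (f : Lip0 M) : |μ.app f| ≤ ‖μ‖ * ‖f‖ :=
  (show StrongDual ℝ (Lip0 M) from μ).le_opNorm f

/-- evaluation at `f` as a linear map -/
noncomputable def DualLip.ev (f : Lip0 M) : DualLip M →ₗ[ℝ] ℝ where
  toFun μ := μ.app f
  map_add' _ _ := rfl
  map_smul' _ _ := rfl

theorem DualLip.ev_apply (f : Lip0 M) (μ : DualLip M) : DualLip.ev f μ = μ.app f := rfl

theorem DualLip.exists_norming (μ : DualLip M) {c : ℝ} (h : c < ‖μ‖) :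
    ∃ f : Lip0 M, ‖f‖ ≤ 1 ∧ c < μ.app f := by
  obtain ⟨f, hf, hf2⟩ := ContinuousLinearMap.exists_lt_apply_of_lt_opNorm
    (show StrongDual ℝ (Lip0 M) from μ) h
  rcases le_total 0 (μ.app f) with h1 | h1
  · refine ⟨f, hf.le, ?_⟩
    have : c < ‖μ.app f‖ := hf2
    rwa [Real.norm_of_nonneg h1] at this
  · refine ⟨-f, by rw [norm_neg]; exact hf.le, ?_⟩
    have : c < ‖μ.app f‖ := hf2
    rw [Real.norm_of_nonpos h1] at this
    rw [DualLip.app_neg]
    exact this

variable (M)

/-- The Lipschitz-free space `F(M)`: the norm-closed linear span of `δ(M)` in `Lip₀(M)*`. -/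
noncomputable def LipFree : Submodule ℝ (DualLip M) :=
  (Submodule.span ℝ (range (delta : M → DualLip M))).topologicalClosure

/-- The Lipschitz-free space `F(M)` as a Banach space. -/
abbrev FreeSpace : Type _ := ↥(LipFree M)

end Free

/-- `E` admits a strictly convex norm equivalent to the given one. -/
def AdmitsStrictlyConvexNorm (E : Type*) [NormedAddCommGroup E] [NormedSpace ℝ E] : Prop :=
  ∃ N : Seminorm ℝ E, (∃ a b : ℝ, 0 < a ∧ 0 < b ∧ ∀ x, a * ‖x‖ ≤ N x ∧ N x ≤ b * ‖x‖) ∧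
    ∀ x y, N x = 1 → N y = 1 → N ((1 / 2 : ℝ) • (x + y)) = 1 → x = y

/-- The Lipschitz-free space over `M` admits an equivalent strictly convex norm. -/
def FreeSpaceAdmitsStrictlyConvexNorm (M : Type*) [MetricSpace M] [Zero M] : Prop :=
  AdmitsStrictlyConvexNorm (FreeSpace M)

/-- `ℓ_∞` -/
abbrev linf := lp (fun _ : ℕ => ℝ) ⊤

/-- the restriction to the first `n` coordinates -/
def proj (n : ℕ) (x : linf) : Fin n → ℝ := fun i => x i

theorem dist_proj_le (n : ℕ) (x y : linf) : dist (proj n x) (proj n y) ≤ dist x y := by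
  rw [dist_pi_le_iff dist_nonneg]
  intro i
  have := lp.norm_apply_le_norm (p := ⊤) (by simp) (x - y) i
  rw [dist_eq_norm, dist_eq_norm]
  exact this

theorem proj_mono {m n : ℕ} (h : m ≤ n) (x y : linf) :
    dist (proj m x) (proj m y) ≤ dist (proj n x) (proj n y) := by
  rw [dist_pi_le_iff dist_nonneg]
  intro i
  exact dist_le_pi_dist (proj n x) (proj n y) ⟨i, i.2.trans_le h⟩

theorem exists_proj {x y : linf} {θ : ℝ} (hθ : θ < 1) :
    ∃ n, θ * dist x y ≤ dist (proj n x) (proj n y) := by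
  by_cases h : x = y
  · subst h
    exact ⟨0, by simp⟩
  · have hd : 0 < dist x y := dist_pos.2 h
    have h1 : θ * dist x y < ‖x - y‖ := by
      rw [← dist_eq_norm]
      nlinarith
    rw [lp.norm_eq_ciSup] at h1
    obtain ⟨i, hi⟩ := exists_lt_of_lt_ciSup h1
    refine ⟨i + 1, hi.le.trans ?_⟩
    have := dist_le_pi_dist (proj (i + 1) x) (proj (i + 1) y) ⟨i, Nat.lt_succ_self i⟩
    exact this

/-- pulling back a Lipschitz function on `ℝⁿ` to `ℓ_∞` -/
def pull (n : ℕ) (g : (Fin n → ℝ) → ℝ) (hg : LipschitzWith 1 g) (hg0 : g 0 = 0) : Lip0 linf :=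
  ⟨fun x => g (proj n x), by
    constructor
    · show g (proj n 0) = 0
      rw [← hg0]
      rfl
    · refine ⟨1, LipschitzWith.of_dist_le_mul fun x y => ?_⟩
      exact (hg.dist_le_mul _ _).trans (mul_le_mul_of_nonneg_left (dist_proj_le n x y) (by simp))⟩

@[simp] theorem pull_fn (n : ℕ) (g : (Fin n → ℝ) → ℝ) (hg : LipschitzWith 1 g) (hg0 : g 0 = 0)
    (x : linf) : (pull n g hg hg0).fn x = g (proj n x) := rfl

theorem norm_pull_le (n : ℕ) (g : (Fin n → ℝ) → ℝ) (hg : LipschitzWith 1 g) (hg0 : g 0 = 0) :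
    ‖pull n g hg hg0‖ ≤ 1 := by
  apply Lip0.norm_le _ zero_le_one
  intro x y
  rw [pull_fn, pull_fn, ← Real.dist_eq, one_mul]
  have := hg.dist_le_mul (proj n x) (proj n y)
  rw [NNReal.coe_one, one_mul] at this
  exact this.trans (dist_proj_le n x y)

/-- the 1-Lipschitz functions on `ℝⁿ` vanishing at `0`, as continuous maps -/
def E (n : ℕ) : Set C(Fin n → ℝ, ℝ) := {g | LipschitzWith 1 g ∧ g 0 = 0}

instance (n : ℕ) : Nonempty (E n) := ⟨⟨0, by
  constructor
  · exact (LipschitzWith.const (0 : ℝ)).weaken (by simp)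
  · rfl⟩⟩

/-- the countable family of functions -/
noncomputable def fam (p : ℕ × ℕ) : Lip0 linf :=
  pull p.1 _ (TopologicalSpace.denseSeq (E p.1) p.2).2.1 (TopologicalSpace.denseSeq (E p.1) p.2).2.2

theorem norm_fam_le (p : ℕ × ℕ) : ‖fam p‖ ≤ 1 := norm_pull_le _ _ _ _

/-- finitely many values of a 1-Lipschitz function on `ℝⁿ` are approximated by the family -/
theorem exists_fam (n : ℕ) (g : (Fin n → ℝ) → ℝ) (hg : LipschitzWith 1 g) (hg0 : g 0 = 0)
    (S : Finset linf) {η : ℝ} (hη : 0 < η) :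
    ∃ k, ∀ x ∈ S, |(fam (n, k)).fn x - g (proj n x)| < η := by
  let g' : E n := ⟨⟨g, hg.continuous⟩, hg, hg0⟩
  have hopen : IsOpen {h : E n | ∀ x ∈ S, |h.1 (proj n x) - g (proj n x)| < η} := by
    have : {h : E n | ∀ x ∈ S, |h.1 (proj n x) - g (proj n x)| < η} =
        ⋂ x ∈ S, {h : E n | |h.1 (proj n x) - g (proj n x)| < η} := by
      ext h
      simp
    rw [this]
    apply isOpen_biInter_finset
    intro x _
    apply isOpen_lt _ continuous_const
    have h1 : Continuous (fun h : E n => h.1 (proj n x)) :=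
      (continuous_eval_const (proj n x)).comp continuous_subtype_val
    exact (h1.sub continuous_const).abs
  obtain ⟨k, hk⟩ := (TopologicalSpace.denseRange_denseSeq (E n)).exists_mem_open hopen
    ⟨g', fun x _ => by simpa [g'] using hη⟩
  exact ⟨k, hk⟩

/-- the McShane step -/
theorem exists_finite_dim (f : Lip0 linf) (hf : ‖f‖ ≤ 1) (S : Finset linf) {θ : ℝ}
    (hθ0 : 0 ≤ θ) (hθ : θ < 1) :
    ∃ n, ∃ g : (Fin n → ℝ) → ℝ, LipschitzWith 1 g ∧ g 0 = 0 ∧
      ∀ x ∈ S, g (proj n x) = θ * f.fn x := by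
  classical
  set S' : Finset linf := insert 0 S with hS'
  have hn : ∃ n, ∀ x ∈ S', ∀ y ∈ S', θ * dist x y ≤ dist (proj n x) (proj n y) := by
    choose N hN using fun p : linf × linf => exists_proj (x := p.1) (y := p.2) hθ
    refine ⟨(S' ×ˢ S').sup N, fun x hx y hy => ?_⟩
    refine (hN (x, y)).trans (proj_mono ?_ x y)
    exact Finset.le_sup (f := N) (Finset.mem_product.2 ⟨hx, hy⟩)
  obtain ⟨n, hn⟩ := hn
  let h : (Fin n → ℝ) → ℝ := fun y => if hy : ∃ x ∈ S', proj n x = y then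
    θ * f.fn (Classical.choose hy) else 0
  have hf1 : ∀ x y, |f.fn x - f.fn y| ≤ dist x y := by
    intro x y
    exact (f.le_norm_mul x y).trans (mul_le_of_le_one_left dist_nonneg hf)
  have hlip : ∀ x ∈ S', ∀ y ∈ S', |θ * f.fn x - θ * f.fn y| ≤ dist (proj n x) (proj n y) := by
    intro x hx y hy
    rw [← mul_sub, abs_mul, abs_of_nonneg hθ0]
    exact (mul_le_mul_of_nonneg_left (hf1 x y) hθ0).trans (hn x hx y hy)
  have hh : ∀ x ∈ S', h (proj n x) = θ * f.fn x := by
    intro x hx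
    have hy : ∃ x' ∈ S', proj n x' = proj n x := ⟨x, hx, rfl⟩
    have h1 : h (proj n x) = θ * f.fn (Classical.choose hy) := dif_pos hy
    obtain ⟨h2, h3⟩ := Classical.choose_spec hy
    have h4 := hlip _ h2 x hx
    rw [h3, dist_self] at h4
    rw [h1]
    exact sub_eq_zero.1 (abs_eq_zero.1 (le_antisymm h4 (abs_nonneg _)))
  have hL : LipschitzOnWith 1 h (proj n '' S') := by
    apply LipschitzOnWith.of_dist_le_mul
    rintro _ ⟨x, hx, rfl⟩ _ ⟨y, hy, rfl⟩
    rw [hh x hx, hh y hy, NNReal.coe_one, one_mul, Real.dist_eq]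
    exact hlip x hx y hy
  obtain ⟨g, hg, hgh⟩ := hL.extend_real
  have hgS : ∀ x ∈ S', g (proj n x) = θ * f.fn x := by
    intro x hx
    rw [← hh x hx]
    exact (hgh ⟨x, hx, rfl⟩).symm
  refine ⟨n, g, hg, ?_, fun x hx => hgS x (Finset.mem_insert_of_mem hx)⟩
  have := hgS 0 (Finset.mem_insert_self _ _)
  rw [Lip0.fn_zero_pt, mul_zero] at this
  exact this

/-- The countable family separates the points of the free space. -/
theorem total {μ : DualLip linf} (hμ : μ ∈ LipFree linf) (h0 : ∀ p, μ.app (fam p) = 0) :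
    μ = 0 := by
  by_contra hne
  have hc : 0 < ‖μ‖ := norm_pos_iff.2 hne
  set c := ‖μ‖ with hcdef
  -- approximate by a finitely supported element
  have hcl : μ ∈ closure (Submodule.span ℝ (range (delta : linf → DualLip linf)) :
      Set (DualLip linf)) := hμ
  obtain ⟨ν, hν, hμν⟩ := Metric.mem_closure_iff.1 hcl (c / 8) (by positivity)
  rw [dist_eq_norm] at hμν
  obtain ⟨a, ha⟩ := (Finsupp.mem_span_range_iff_exists_finsupp).1 hν
  have hνn : 7 * c / 8 < ‖ν‖ := by
    have := norm_sub_norm_le μ ν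
    linarith
  -- a norming function
  obtain ⟨f, hf, hfν⟩ : ∃ f : Lip0 linf, ‖f‖ ≤ 1 ∧ 6 * c / 8 < ν.app f :=
    ν.exists_norming (by linarith)
  have hval : ∀ g : Lip0 linf, ν.app g = ∑ x ∈ a.support, a x * g.fn x := by
    intro g
    rw [← DualLip.ev_apply, ← ha, Finsupp.sum, map_sum]
    rfl
  obtain ⟨n, g, hg, hg0, hgS⟩ := exists_finite_dim f hf a.support (θ := 5 / 6) (by norm_num)
    (by norm_num)
  set A : ℝ := ∑ x ∈ a.support, |a x| with hA
  have hA0 : 0 ≤ A := Finset.sum_nonneg fun _ _ => abs_nonneg _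
  obtain ⟨k, hk⟩ := exists_fam n g hg hg0 a.support (η := c / 8 / (A + 1)) (by positivity)
  have h1 : |ν.app (fam (n, k)) - 5 / 6 * ν.app f| ≤ c / 8 := by
    rw [hval, hval, Finset.mul_sum, ← Finset.sum_sub_distrib]
    calc |∑ x ∈ a.support, (a x * (fam (n, k)).fn x - 5 / 6 * (a x * f.fn x))|
        ≤ ∑ x ∈ a.support, |a x * (fam (n, k)).fn x - 5 / 6 * (a x * f.fn x)| :=
          Finset.abs_sum_le_sum_abs _ _
      _ ≤ ∑ x ∈ a.support, |a x| * (c / 8 / (A + 1)) := by
          apply Finset.sum_le_sum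
          intro x hx
          have h2 : a x * (fam (n, k)).fn x - 5 / 6 * (a x * f.fn x) =
              a x * ((fam (n, k)).fn x - g (proj n x)) := by
            rw [hgS x hx]; ring
          rw [h2, abs_mul]
          exact mul_le_mul_of_nonneg_left (hk x hx).le (abs_nonneg _)
      _ = A * (c / 8 / (A + 1)) := by rw [← Finset.sum_mul]
      _ ≤ (A + 1) * (c / 8 / (A + 1)) := by
          apply mul_le_mul_of_nonneg_right (by linarith) (by positivity)
      _ = c / 8 := by field_simp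
  have h2 : |ν.app (fam (n, k))| < c / 8 := by
    have h3 : |(μ - ν).app (fam (n, k))| ≤ ‖μ - ν‖ * 1 :=
      ((μ - ν).abs_app_le _).trans (mul_le_mul_of_nonneg_left (norm_fam_le _) (norm_nonneg _))
    rw [DualLip.app_sub, h0, zero_sub, abs_neg, mul_one] at h3
    linarith
  have h3 := (abs_le.1 h1).1
  have h4 := le_abs_self (ν.app (fam (n, k)))
  linarith

theorem abs_app_fam_le (μ : DualLip linf) (p : ℕ × ℕ) : |μ.app (fam p)| ≤ ‖μ‖ := by
  have := (μ.abs_app_le (fam p)).trans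
    (mul_le_mul_of_nonneg_left (norm_fam_le _) (norm_nonneg _))
  rwa [mul_one] at this

/-- the coordinates of the auxiliary operator -/
noncomputable def coord (μ : DualLip linf) (j : ℕ) : ℝ :=
  (1 / 2 : ℝ) ^ j * μ.app (fam (Nat.unpair j))

theorem coord_sq_le (μ : DualLip linf) (j : ℕ) : ‖coord μ j‖ ^ 2 ≤ ‖μ‖ ^ 2 * (1 / 4 : ℝ) ^ j := by
  have h3 : ‖coord μ j‖ ≤ (1 / 2 : ℝ) ^ j * ‖μ‖ := by
    rw [coord, norm_mul, Real.norm_of_nonneg (by positivity)]
    exact mul_le_mul_of_nonneg_left (abs_app_fam_le _ _) (by positivity)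
  calc ‖coord μ j‖ ^ 2 ≤ ((1 / 2 : ℝ) ^ j * ‖μ‖) ^ 2 :=
        pow_le_pow_left₀ (norm_nonneg _) h3 2
    _ = ‖μ‖ ^ 2 * (1 / 4 : ℝ) ^ j := by
        rw [mul_pow, ← pow_mul, mul_comm j 2, pow_mul]
        norm_num
        ring

theorem summable_aux (μ : DualLip linf) : Summable fun j : ℕ => ‖μ‖ ^ 2 * (1 / 4 : ℝ) ^ j :=
  (summable_geometric_of_lt_one (by norm_num) (by norm_num)).mul_left _

theorem memlp (μ : DualLip linf) : Memℓp (coord μ) 2 := by
  apply memℓp_gen
  simp only [ENNReal.toReal_ofNat, Real.rpow_ofNat]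
  exact Summable.of_nonneg_of_le (fun j => by positivity) (coord_sq_le μ) (summable_aux μ)

/-- the auxiliary operator into `ℓ₂` -/
noncomputable def T : DualLip linf →ₗ[ℝ] lp (fun _ : ℕ => ℝ) 2 where
  toFun μ := ⟨_, memlp μ⟩
  map_add' μ ν := by
    ext j
    show (1 / 2 : ℝ) ^ j * (μ + ν).app (fam (Nat.unpair j)) =
      (1 / 2 : ℝ) ^ j * μ.app (fam (Nat.unpair j)) + (1 / 2 : ℝ) ^ j * ν.app (fam (Nat.unpair j))
    rw [DualLip.app_add, mul_add]
  map_smul' c μ := by
    ext j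
    show (1 / 2 : ℝ) ^ j * (c • μ).app (fam (Nat.unpair j)) =
      c * ((1 / 2 : ℝ) ^ j * μ.app (fam (Nat.unpair j)))
    rw [DualLip.app_smul]
    ring

theorem T_apply (μ : DualLip linf) (j : ℕ) : T μ j = coord μ j := rfl

theorem norm_T_le (μ : DualLip linf) : ‖T μ‖ ≤ 2 * ‖μ‖ := by
  apply lp.norm_le_of_tsum_le (by norm_num) (by positivity)
  simp only [ENNReal.toReal_ofNat, Real.rpow_ofNat, T_apply]
  have h2 : Summable fun j : ℕ => ‖coord μ j‖ ^ 2 :=
    Summable.of_nonneg_of_le (fun j => by positivity) (coord_sq_le μ) (summable_aux μ)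
  calc ∑' j, ‖coord μ j‖ ^ 2 ≤ ∑' j, ‖μ‖ ^ 2 * (1 / 4 : ℝ) ^ j :=
        h2.tsum_le_tsum (coord_sq_le μ) (summable_aux μ)
    _ = ‖μ‖ ^ 2 * (4 / 3) := by
        rw [tsum_mul_left, tsum_geometric_of_lt_one (by norm_num) (by norm_num)]
        norm_num
    _ ≤ (2 * ‖μ‖) ^ 2 := by nlinarith [sq_nonneg ‖μ‖]

theorem T_injective {μ : DualLip linf} (hμ : μ ∈ LipFree linf) (h : T μ = 0) : μ = 0 := by
  apply total hμ
  intro p
  have h1 : T μ (Nat.pair p.1 p.2) = 0 := by rw [h]; rfl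
  rw [T_apply, coord, Nat.unpair_pair] at h1
  rcases mul_eq_zero.1 h1 with h2 | h2
  · exact absurd h2 (by positivity)
  · exact h2

/-- the inclusion of the free space in the dual of `Lip₀` -/
noncomputable def incl : FreeSpace linf →ₗ[ℝ] DualLip linf := (LipFree linf).subtype

theorem norm_incl (μ : FreeSpace linf) : ‖incl μ‖ = ‖μ‖ := rfl

theorem incl_injective {μ : FreeSpace linf} (h : incl μ = 0) : μ = 0 := Subtype.ext h

theorem incl_mem (μ : FreeSpace linf) : incl μ ∈ LipFree linf := μ.2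

theorem norm_smul_free (c : ℝ) (μ : FreeSpace linf) : ‖c • μ‖ = ‖c‖ * ‖μ‖ :=
  norm_smul c (incl μ)

/-- the new norm on `F(ℓ_∞)` -/
noncomputable def newNorm : Seminorm ℝ (FreeSpace linf) :=
  Seminorm.of (fun μ => ‖μ‖ + ‖T (incl μ)‖)
    (fun μ ν => by
      have h1 := norm_add_le μ ν
      have h2 : ‖T (incl (μ + ν))‖ ≤ ‖T (incl μ)‖ + ‖T (incl ν)‖ := by
        rw [map_add, map_add]
        exact norm_add_le _ _
      linarith)
    (fun c μ => by
      rw [norm_smul_free, map_smul, map_smul, norm_smul, mul_add])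

theorem newNorm_apply (μ : FreeSpace linf) : newNorm μ = ‖μ‖ + ‖T (incl μ)‖ := rfl

/-- `F(ℓ_∞)` admits an equivalent strictly convex norm. -/
theorem result : FreeSpaceAdmitsStrictlyConvexNorm linf := by
  refine ⟨newNorm, ⟨1, 3, one_pos, by norm_num, fun μ => ?_⟩, ?_⟩
  · rw [newNorm_apply]
    have h1 := norm_T_le (incl μ)
    rw [norm_incl] at h1
    constructor
    · rw [one_mul]
      linarith [norm_nonneg (T (incl μ))]
    · linarith
  · intro μ ν h1 h2 h3
    rw [map_smul_eq_mul, newNorm_apply, map_add, map_add] at h3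
    rw [newNorm_apply] at h1 h2
    set x : lp (fun _ : ℕ => ℝ) 2 := T (incl μ) with hx
    set y : lp (fun _ : ℕ => ℝ) 2 := T (incl ν) with hy
    have h4 := norm_add_le μ ν
    have h5 := norm_add_le x y
    have h6 : ‖(1 / 2 : ℝ)‖ = 1 / 2 := by norm_num
    rw [h6] at h3
    have h7 : ‖x + y‖ = ‖x‖ + ‖y‖ := by linarith
    have h8 : SameRay ℝ x y := sameRay_iff_norm_add.2 h7
    have hinj : ∀ w : FreeSpace linf, T (incl w) = 0 → w = 0 := by
      intro w hw
      exact incl_injective (T_injective (incl_mem w) hw)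
    have hne : ∀ w : FreeSpace linf, ‖w‖ + ‖T (incl w)‖ = 1 → T (incl w) ≠ 0 := by
      intro w hw h0
      rw [h0, hinj w h0] at hw
      simp at hw
    obtain ⟨r, hr, hxy⟩ := h8.exists_pos_left (hne μ h1) (hne ν h2)
    have h9 : r • μ = ν := by
      have : T (incl (r • μ - ν)) = 0 := by
        have e1 : incl (r • μ - ν) = r • incl μ - incl ν := rfl
        rw [e1, map_sub, map_smul, ← hx, ← hy, hxy, sub_self]
      exact sub_eq_zero.1 (hinj _ this)
    have h10 : r = 1 := by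
      have h11 : ‖ν‖ = r * ‖μ‖ := by
        rw [← h9, norm_smul_free, Real.norm_of_nonneg hr.le]
      have h12 : ‖y‖ = r * ‖x‖ := by
        rw [← hxy, norm_smul, Real.norm_of_nonneg hr.le]
      rw [h11, h12, ← mul_add, h1, mul_one] at h2
      exact h2
    rw [← h9, h10, one_smul]

end Pool.Agent.Results.MP_c2fecd_an.StrictlyConvex
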